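import Pool.Agent.H252R3.Leh.Exp

set_option autoImplicit false

/-!
# A lower bound for the Mahler measure in terms of the norm of `z ^ N - 1`
-/

namespace Pool.Agent.Helper34K9.UG

open Polynomial Pool.Agent.H252R3.Leh

/-- If the resultant of `f` and `X ^ N - 1` is exponentially large then the Mahler measure of `f` is
bounded below. -/
theorem main_norm (f : ℤ[X]) (hf : f.Monic) (hi : Irreducible f)
    (hM : 1 < (cx f).mahlerMeasure) (N : ℕ) (hN : 0 < N)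
    (lam : ℝ) (hl0 : 0 < lam) (hl1 : lam ≤ 1)
    (hl : Real.exp (lam * f.natDegree) ≤ |(R f (cyc N) : ℝ)|) :
    (lam / 20) ^ 5 * f.natDegree ≤ N * Real.log (cx f).mahlerMeasure := by
  set M := (cx f).mahlerMeasure with hMdef
  have hM0 : 0 < M := by linarith
  have hlM : 0 < Real.log M := Real.log_pos hM
  set d := f.natDegree with hd
  have hd1 : 1 ≤ d := natDegree_pos_of' f hf hi
  have hd0 : (0:ℝ) < d := by exact_mod_cast hd1
  set z : ℝ := 20 / lam with hz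
  have hz20 : 20 ≤ z := by
    rw [hz, le_div_iff₀ hl0]; linarith
  have hz0 : 0 < z := by linarith
  set n : ℕ := ⌊z ^ ((5:ℝ) / 2)⌋₊ with hn
  have hnle : (n:ℝ) ≤ z ^ ((5:ℝ) / 2) := Nat.floor_le (by positivity)
  have hnlt : z ^ ((5:ℝ) / 2) < n + 1 := Nat.lt_floor_add_one _
  have hn20 : 20 ≤ n := by
    rw [hn, Nat.le_floor_iff (by positivity)]
    push_cast
    calc (20:ℝ) ≤ z := hz20
      _ = z ^ (1:ℝ) := (Real.rpow_one z).symm
      _ ≤ z ^ ((5:ℝ) / 2) := Real.rpow_le_rpow_of_exponent_le (by linarith) (by norm_num)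
  have hn0 : (0:ℝ) < n := by
    have : 0 < n := by omega
    exact_mod_cast this
  set s : ℕ := Nat.sqrt n with hs
  have hs1 : s * s ≤ n := Nat.sqrt_le n
  have hs2 : n < (s + 1) * (s + 1) := Nat.lt_succ_sqrt n
  have hs4 : 4 ≤ s := by
    rw [hs, Nat.le_sqrt]
    omega
  have hsn : s < n := by nlinarith
  have hsn' : (s:ℝ) < n := by exact_mod_cast hsn
  obtain ⟨T, hT0, hTd, hTdvd, hTc⟩ := siegel s n (by omega) hsn
  obtain ⟨b, hb1, hbn, hR⟩ := exists_b f hf hi hM N hN T hT0 n hTd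
  obtain ⟨U, hU⟩ := hTdvd
  have hE : expand ℤ (b * N) T = (cyc (b * N)) ^ s * expand ℤ (b * N) U := by
    rw [hU, map_mul, map_pow]
    congr 2
    simp [cyc]
  have h4 : |R f (cyc N)| ^ s ∣ |R f (expand ℤ (b * N) T)| := by
    rw [← abs_pow, abs_dvd_abs, hE, R_mul f _ _ hf, R_pow f _ hf]
    apply Dvd.dvd.mul_right
    apply pow_dvd_pow_of_dvd
    have h5 : cyc N ∣ cyc (b * N) := by
      simp only [cyc]
      rw [mul_comm b, pow_mul]
      simpa using sub_dvd_pow_sub_pow ((X : ℤ[X]) ^ N) 1 b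
    obtain ⟨V, hV⟩ := h5
    rw [hV, R_mul f _ _ hf]
    exact Dvd.intro _ rfl
  have h5 := Int.le_of_dvd (abs_pos.mpr hR) h4
  have h6 := R_le f (expand ℤ (b * N) T) hf
    ((n : ℝ) * ((n : ℝ) * (n : ℝ) ^ s) ^ ((s : ℝ) / ((n : ℝ) - s))) (by positivity)
    (b * N * (n - 1))
    (expand_bound T n (b * N) hTd _ hTc (b * N * (n - 1)) le_rfl)
  have h7 : Real.exp (s * (lam * d)) ≤ |(R f (expand ℤ (b * N) T) : ℝ)| := by
    have h7a : |(R f (cyc N) : ℝ)| ^ s ≤ |(R f (expand ℤ (b * N) T) : ℝ)| := by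
      exact_mod_cast h5
    refine le_trans ?_ h7a
    rw [Real.exp_nat_mul]
    exact pow_le_pow_left₀ (Real.exp_pos _).le hl s
  have hexp : ((n : ℝ) * (n : ℝ) ^ s) ^ ((s : ℝ) / ((n : ℝ) - s)) ≤ (n:ℝ) ^ 3 := by
    have h3 : (n : ℝ) * (n : ℝ) ^ s = (n:ℝ) ^ ((s + 1 : ℕ) : ℝ) := by
      rw [Real.rpow_natCast, pow_succ]
      ring
    rw [h3, ← Real.rpow_mul hn0.le, ← Real.rpow_natCast]
    apply Real.rpow_le_rpow_of_exponent_le
    · have : 1 ≤ n := by omega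
      exact_mod_cast this
    · have h4 : (0:ℝ) < (n:ℝ) - s := by linarith
      rw [mul_div_assoc', div_le_iff₀ h4]
      have h5 : (s:ℝ) * s ≤ n := by exact_mod_cast hs1
      have h6 : (4:ℝ) ≤ s := by exact_mod_cast hs4
      push_cast
      nlinarith
  have h8 : Real.exp (s * (lam * d)) ≤ ((n:ℝ) ^ 4) ^ d * M ^ (N * n ^ 2) := by
    refine (h7.trans h6).trans ?_
    have h9 : (n : ℝ) * ((n : ℝ) * (n : ℝ) ^ s) ^ ((s : ℝ) / ((n : ℝ) - s)) ≤ (n:ℝ) ^ 4 := by
      calc (n : ℝ) * ((n : ℝ) * (n : ℝ) ^ s) ^ ((s : ℝ) / ((n : ℝ) - s)) ≤ n * n ^ 3 := by gcongr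
        _ = (n:ℝ) ^ 4 := by ring
    have h10 : b * N * (n - 1) ≤ N * n ^ 2 := by
      calc b * N * (n - 1) ≤ n * N * n := by
            apply Nat.mul_le_mul
            · exact Nat.mul_le_mul_right _ hbn
            · omega
        _ = N * n ^ 2 := by ring
    have h11 : M ^ (b * N * (n - 1)) ≤ M ^ (N * n ^ 2) := pow_le_pow_right₀ hM.le h10
    gcongr
  have h9 : (s : ℝ) * (lam * d) ≤ d * (4 * Real.log n) + N * n ^ 2 * Real.log M := by
    have h10 := Real.log_le_log (by positivity) h8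
    rw [Real.log_exp, Real.log_mul (by positivity) (by positivity), Real.log_pow, Real.log_pow,
      Real.log_pow] at h10
    push_cast at h10
    linarith
  -- numerical part
  have hlogn : Real.log n ≤ (5 / 2) * Real.log z := by
    rw [← Real.log_rpow hz0]
    exact Real.log_le_log hn0 hnle
  have hs3 : z ^ ((5:ℝ) / 4) ≤ s + 1 := by
    have h10 : (z ^ ((5:ℝ) / 4)) ^ 2 = z ^ ((5:ℝ) / 2) := by
      rw [← Real.rpow_natCast, ← Real.rpow_mul hz0.le]
      norm_num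
    have h11 : (z ^ ((5:ℝ) / 4)) ^ 2 ≤ ((s:ℝ) + 1) ^ 2 := by
      rw [h10]
      have h12 : (n:ℝ) + 1 ≤ (s + 1) * (s + 1) := by exact_mod_cast hs2
      nlinarith
    exact le_of_sq_le_sq h11 (by positivity)
  have hslam : 4 * Real.log n + 1 ≤ s * lam := by
    have h10 : (z ^ ((5:ℝ) / 4) - 1) * lam ≤ s * lam := by
      have : z ^ ((5:ℝ) / 4) - 1 ≤ s := by linarith
      gcongr
    have h11 : z ^ ((5:ℝ) / 4) * lam = 20 * z ^ ((1:ℝ) / 4) := by
      have h12 : z ^ ((5:ℝ) / 4) = z * z ^ ((1:ℝ) / 4) := by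
        rw [show (5:ℝ) / 4 = 1 + 1 / 4 by norm_num, Real.rpow_add hz0, Real.rpow_one]
      have h13 : z * lam = 20 := by
        rw [hz]; field_simp
      rw [h12]
      calc z * z ^ ((1:ℝ) / 4) * lam = (z * lam) * z ^ ((1:ℝ) / 4) := by ring
        _ = _ := by rw [h13]
    have h12 := num_ineq z hz20
    calc 4 * Real.log n + 1 ≤ 4 * ((5 / 2) * Real.log z) + 1 := by linarith
      _ ≤ 20 * z ^ ((1:ℝ) / 4) - 1 := h12
      _ ≤ 20 * z ^ ((1:ℝ) / 4) - lam := by linarith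
      _ = (z ^ ((5:ℝ) / 4) - 1) * lam := by rw [sub_mul, h11, one_mul]
      _ ≤ _ := h10
  have h10 : (d:ℝ) ≤ N * n ^ 2 * Real.log M := by
    have h12 : (4 * Real.log n + 1) * d ≤ (s * lam) * d := by gcongr
    nlinarith
  have h11 : (n:ℝ) ^ 2 ≤ z ^ 5 := by
    have h12 : (z ^ ((5:ℝ) / 2)) ^ 2 = z ^ 5 := by
      rw [← Real.rpow_natCast, ← Real.rpow_mul hz0.le]
      norm_num
    rw [← h12]
    gcongr
  have h12 : (d:ℝ) ≤ N * z ^ 5 * Real.log M := by
    refine h10.trans ?_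
    gcongr
  have h13 : (lam / 20) ^ 5 * z ^ 5 = 1 := by
    rw [← mul_pow, hz]
    have : lam / 20 * (20 / lam) = 1 := by field_simp
    rw [this, one_pow]
  calc (lam / 20) ^ 5 * d ≤ (lam / 20) ^ 5 * (N * z ^ 5 * Real.log M) := by gcongr
    _ = ((lam / 20) ^ 5 * z ^ 5) * (N * Real.log M) := by ring
    _ = _ := by rw [h13, one_mul]

end Pool.Agent.Helper34K9.UG
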