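import Mathlib
import Pool.Agent.R976.UG.Const
import Pool.Agent.R976.UG.Gap
import Pool.Agent.R701.UG.Eqv
import Pool.Agent.Helper34K9.UG.Norm

set_option autoImplicit false

/-!
# The growth gap for mixed classes of eigenvalues
-/

open Filter Topology Polynomial
open scoped Pointwise commutatorElement TensorProduct ComplexConjugate

namespace Pool.Agent.Helper34K9.UG

open Pool.Agent Pool.Agent.TH53.UG Pool.Agent.W963.GE Pool.Agent.H252R3.Leh
  Pool.Agent.R976.UG Pool.Agent.R701.UG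

universe u

/-- the product of `|w ^ n - 1|` over the conjugates `w` of `z` -/
noncomputable def normPow (z : ℂ) (n : ℕ) : ℝ :=
  (((minpoly ℤ z).map (Int.castRingHom ℂ)).roots.map (fun w => ‖w ^ n - 1‖)).prod

lemma norm_prod_map (s : Multiset ℂ) (g : ℂ → ℂ) :
    ‖(s.map g).prod‖ = (s.map (fun w => ‖g w‖)).prod := by
  induction s using Multiset.induction_on with
  | empty => simp
  | cons a s ih => rw [Multiset.map_cons, Multiset.prod_cons, norm_mul, ih, Multiset.map_cons,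
      Multiset.prod_cons]

lemma normPow_eq {z : ℂ} (hz : IsIntegral ℤ z) (n : ℕ) :
    normPow z n = |(R (minpoly ℤ z) (cyc n) : ℝ)| := by
  have h1 : |(R (minpoly ℤ z) (cyc n) : ℝ)| = ‖((R (minpoly ℤ z) (cyc n) : ℤ) : ℂ)‖ := by
    rw [Complex.norm_intCast]
  rw [h1, R_cast _ _ (minpoly.monic hz), norm_prod_map]
  unfold normPow
  congr 1
  apply Multiset.map_congr rfl
  intro w _
  simp [cx, cyc]

/-- Lehmer's problem for numbers `z` such that the norm of `z ^ n - 1` is large. -/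
theorem mahler_norm {z : ℂ} (hz : IsIntegral ℤ z) (h0 : z ≠ 0) (hroot : ∀ m > 0, z ^ m ≠ 1)
    {n : ℕ} (hn : 0 < n) {θ : ℝ} (hθ0 : 0 < θ) (hθ1 : θ ≤ 1)
    (h : Real.exp (θ * (minpoly ℤ z).natDegree) ≤ normPow z n) :
    (θ / 20) ^ 5 * (minpoly ℤ z).natDegree ≤ n * Real.log (MM z) := by
  rw [normPow_eq hz] at h
  exact main_norm (minpoly ℤ z) (minpoly.monic hz) (minpoly.irreducible hz) (MM_gt z hz h0 hroot)
    n hn θ hθ0 hθ1 h

/-- the constant -/
noncomputable def kap (N P B C : ℕ) : ℝ :=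
  1 / (4 ^ N * C * (180 * (B : ℝ) ^ 2) ^ 5 * (P : ℝ) ^ (2 * B + 2))

lemma kap_pos {N P B C : ℕ} (hP : 1 ≤ P) (hB : 1 ≤ B) (hC : 1 ≤ C) : 0 < kap N P B C := by
  have h1 : (0 : ℝ) < B := by exact_mod_cast hB
  have h2 : (0 : ℝ) < P := by exact_mod_cast hP
  have h3 : (0 : ℝ) < C := by exact_mod_cast hC
  unfold kap
  positivity

lemma kap_eq (N P B C : ℕ) : kap N P B C = (1 / 4 ^ N) * (1 / C) * eps P B := by
  unfold kap eps
  rw [div_pow, one_pow]
  field_simp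

lemma eps_nonneg (P B : ℕ) : 0 ≤ eps P B := by
  unfold eps; positivity

lemma inv_four_le (N : ℕ) : (1 : ℝ) / 4 ^ N ≤ 1 := by
  rw [div_le_one (by positivity)]
  exact one_le_pow₀ (by norm_num)

lemma inv_C_le {C : ℕ} (hC : 1 ≤ C) : (1 : ℝ) / C ≤ 1 := by
  have h3 : (1 : ℝ) ≤ C := by exact_mod_cast hC
  rw [div_le_one (by linarith)]
  exact h3

lemma kap_le_eps {N P B C : ℕ} (hC : 1 ≤ C) : kap N P B C ≤ eps P B := by
  rw [kap_eq]
  have h1 := inv_four_le N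
  have h2 := inv_C_le hC
  have h3 : (0 : ℝ) ≤ 1 / 4 ^ N := by positivity
  have h4 : (0 : ℝ) ≤ 1 / C := by positivity
  have h5 := eps_nonneg P B
  have h6 : (1 : ℝ) / 4 ^ N * (1 / C) ≤ 1 := mul_le_one₀ h1 h4 h2
  exact mul_le_of_le_one_left h5 h6

lemma kap_le_four {N P B C : ℕ} (hP : 1 ≤ P) (hB : 1 ≤ B) (hC : 1 ≤ C) :
    kap N P B C ≤ 1 / (180 * 4 ^ N) := by
  rw [kap_eq]
  have h2 := inv_C_le hC
  have h3 : (0 : ℝ) ≤ 1 / 4 ^ N := by positivity
  have h4 : (0 : ℝ) ≤ 1 / C := by positivity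
  have h5 := eps_nonneg P B
  have h6 := eps_le hP hB
  calc (1 : ℝ) / 4 ^ N * (1 / C) * eps P B ≤ (1 / 4 ^ N) * 1 * (1 / 180) := by
        gcongr
    _ = 1 / (180 * 4 ^ N) := by field_simp

/-- the constant for the last class -/
noncomputable def dl (B C : ℕ) : ℝ := (1 / (B : ℝ) / 20) ^ 5 / C

lemma kap_le_dl {N P B C : ℕ} (hP : 1 ≤ P) (hB : 1 ≤ B) (hC : 1 ≤ C) :
    kap N P B C ≤ dl B C := by
  have h1 : (1 : ℝ) ≤ B := by exact_mod_cast hB
  have h2 : (1 : ℝ) ≤ P := by exact_mod_cast hP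
  have h3 : (1 : ℝ) ≤ C := by exact_mod_cast hC
  have e : dl B C = 1 / (C * (20 * (B : ℝ)) ^ 5) := by
    unfold dl
    rw [div_pow, div_pow, one_pow]
    field_simp
  rw [e]
  unfold kap
  apply one_div_le_one_div_of_le (by positivity)
  have h4 : (1 : ℝ) ≤ 4 ^ N := one_le_pow₀ (by norm_num)
  have h5 : (1 : ℝ) ≤ (P : ℝ) ^ (2 * B + 2) := one_le_pow₀ h2
  have h6 : (20 * (B : ℝ)) ^ 5 ≤ (180 * (B : ℝ) ^ 2) ^ 5 := by
    apply pow_le_pow_left₀ (by positivity)
    nlinarith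
  calc C * (20 * (B : ℝ)) ^ 5 = 1 * C * (20 * (B : ℝ)) ^ 5 * 1 := by ring
    _ ≤ 4 ^ N * C * (180 * (B : ℝ) ^ 2) ^ 5 * (P : ℝ) ^ (2 * B + 2) := by gcongr

lemma dl_pos {B C : ℕ} (hB : 1 ≤ B) (hC : 1 ≤ C) : 0 < dl B C := by
  have h1 : (0 : ℝ) < B := by exact_mod_cast hB
  have h3 : (0 : ℝ) < C := by exact_mod_cast hC
  unfold dl
  positivity

lemma dl_le {B C : ℕ} (hB : 1 ≤ B) (hC : 1 ≤ C) : dl B C ≤ 1 / 180 := by
  have h1 : (1 : ℝ) ≤ B := by exact_mod_cast hB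
  have h3 : (1 : ℝ) ≤ C := by exact_mod_cast hC
  have h4 : (1 / (B : ℝ) / 20) ≤ 1 / 20 := by
    have : 1 / (B : ℝ) ≤ 1 := by
      rw [div_le_one (by linarith)]; exact h1
    linarith
  have h5 : (1 / (B : ℝ) / 20) ^ 5 ≤ (1 / 20) ^ 5 := pow_le_pow_left₀ (by positivity) h4 5
  unfold dl
  rw [div_le_iff₀ (by linarith)]
  norm_num at h5 ⊢
  nlinarith

/-- the condition on the units -/
def GoodU (N P B C : ℕ) (z : ℂ) : Prop :=
  NotRecip z ∨ Odd (minpoly ℤ z).natDegree ∨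
    (minpoly ℚ z).natDegree ≤ N * ((minpoly ℚ z).rootSet ℝ).ncard ∨
    (∃ (p : ℕ) (_ : Fact p.Prime), p ≤ P ∧
      (minpoly ℤ z).natDegree ≤ B * numFactors p (minpoly ℤ z)) ∨
    ∃ n : ℕ, 0 < n ∧ n ≤ C * (minpoly ℤ z).natDegree ∧
      Real.exp ((minpoly ℤ z).natDegree / B) ≤ normPow z n

lemma log_MM_dl {z : ℂ} (hz : IsIntegral ℤ z) (h0 : z ≠ 0) (hroot : ∀ m > 0, z ^ m ≠ 1)
    {B C n : ℕ} (hB : 1 ≤ B) (hC : 1 ≤ C) (hn : 0 < n) (hnC : n ≤ C * (minpoly ℤ z).natDegree)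
    (h : Real.exp ((minpoly ℤ z).natDegree / B) ≤ normPow z n) : dl B C ≤ Real.log (MM z) := by
  have hB' : (1 : ℝ) ≤ B := by exact_mod_cast hB
  have hC' : (1 : ℝ) ≤ C := by exact_mod_cast hC
  have hn' : (0 : ℝ) < n := by exact_mod_cast hn
  have hM := Real.log_pos (MM_gt z hz h0 hroot)
  have hd : (0 : ℝ) < (minpoly ℤ z).natDegree := by exact_mod_cast minpoly.natDegree_pos hz
  have e : 1 / (B : ℝ) * (minpoly ℤ z).natDegree = (minpoly ℤ z).natDegree / B := by ring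
  have h1 := mahler_norm hz h0 hroot hn (θ := 1 / (B : ℝ)) (by positivity)
    (by rw [div_le_one (by linarith)]; exact hB') (by rw [e]; exact h)
  have h2 : (n : ℝ) ≤ C * (minpoly ℤ z).natDegree := by exact_mod_cast hnC
  have h3 : (1 / (B : ℝ) / 20) ^ 5 * (minpoly ℤ z).natDegree ≤
      (C * Real.log (MM z)) * (minpoly ℤ z).natDegree := by
    refine h1.trans ?_
    calc n * Real.log (MM z) ≤ (C * (minpoly ℤ z).natDegree) * Real.log (MM z) := by gcongr
      _ = _ := by ring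
  have h4 := le_of_mul_le_mul_right h3 hd
  unfold dl
  rw [div_le_iff₀ (by linarith)]
  linarith

/-- lower bound for the growth of the digit sums -/
theorem eta_mix {x : ℂ} (hx0 : x ≠ 0) (hxi : IsIntegral ℤ x) (hx : ∀ m > 0, x ^ m ≠ 1)
    {N P B C : ℕ} (hN : 1 ≤ N) (hP : 1 ≤ P) (hB : 1 ≤ B) (hC : 1 ≤ C)
    (hgood : IsIntegral ℤ x⁻¹ → GoodU N P B C x) : kap N P B C / 2 ≤ H746UG.eta x := by
  have hl2 := Real.log_two_gt_d9
  have hk4 := kap_le_four (N := N) hP hB hC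
  have h4 : (4 : ℝ) ≤ 4 ^ N := by
    calc (4 : ℝ) = 4 ^ 1 := by norm_num
      _ ≤ 4 ^ N := pow_le_pow_right₀ (by norm_num) hN
  have hk : kap N P B C ≤ 1 / 720 := by
    refine hk4.trans ?_
    apply one_div_le_one_div_of_le (by norm_num)
    linarith
  by_cases hi : IsIntegral ℤ x⁻¹
  swap
  · rw [H746UG.eta_eq_log_two x hx0 (fun h => hi h.2)]
    linarith
  have hM : 0 < MM x := zero_lt_one.trans_le (MM_ge x hxi)
  have hnr : NotRecip x → kap N P B C / 2 ≤ H746UG.eta x := by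
    intro h
    have h1 := one_le_of_notRecip hxi hx0 hi h
    have h2 := (base_eighth hM h1).trans (eta_ge x hx0 hxi)
    linarith
  rcases hgood hi with h | h | h | h | ⟨n, hn, hnC, h⟩
  · exact hnr h
  · exact hnr (notRecip_of_odd hxi hx0 hi hx h)
  · have h1 := eta_bound hx0 hxi hx hN (N := N) (Or.inr (Or.inr (Or.inr (Or.inl h))))
    have h2 : (1 : ℝ) / (180 * 4 ^ N) ≤ 1 / (3 * 4 ^ N) :=
      one_div_le_one_div_of_le (by positivity) (by nlinarith)
    have h3 := kap_pos (N := N) hP hB hC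
    linarith
  · have h1 := eta_boundP hx0 hxi hx hP hB (Or.inr h)
    have h2 := kap_le_eps (N := N) (P := P) (B := B) hC
    linarith
  · have h1 := eta_boundC hx0 hxi hx (dl_pos hB hC) (dl_le hB hC)
      (log_MM_dl hxi hx0 hx hB hC hn hnC h)
    have h2 := kap_le_dl (N := N) hP hB hC
    linarith

/-- **the gap** -/
theorem gap_mix {k d N P B C : ℕ} (hk : 1 ≤ k) (hN : 1 ≤ N) (hP : 1 ≤ P) (hB : 1 ≤ B)
    (hC : 1 ≤ C) {G : Type u} [Group G]
    (S : Set G) (hfin : S.Finite) (hgen : Subgroup.closure S = ⊤) (H : Subgroup G)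
    (hH0 : H.index ≠ 0) (hHd : H.index ≤ d)
    (hnil : Group.IsNilpotent (gam H k) ∨ ¬ Group.IsVirtuallyNilpotent (H ⧸ ⁅gam H k, gam H k⁆))
    (hgood : ∀ (t : H) (z : ℂ), Module.End.HasEigenvalue
      (LinearMap.baseChange ℂ (act (gam H k) t) :
        Module.End ℂ (ℂ ⊗[ℤ] (Additive (Abelianization (gam H k))))) z → z ≠ 0 →
        IsIntegral ℤ z → IsIntegral ℤ z⁻¹ → (∀ m > 0, z ^ m ≠ 1) → GoodU N P B C z) :
    Group.IsVirtuallyNilpotent G ∨
      kap N P B C / (2 ^ (k + 2) * (2 * d - 1)) ≤ H746UG.rho S := by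
  have e : kap N P B C / (2 ^ (k + 2) * (2 * d - 1)) =
      (kap N P B C / 2) / (2 ^ (k + 1) * (2 * d - 1)) := by
    rw [div_div]
    congr 1
    ring
  rw [e]
  refine gap_general hk S hfin hgen H hH0 hHd hnil ?_ ?_
  · have := Real.log_two_gt_d9
    have h1 := kap_le_four (N := N) hP hB hC
    have h2 : (1 : ℝ) / (180 * 4 ^ N) ≤ 1 := by
      rw [div_le_one (by positivity)]
      have : (1 : ℝ) ≤ 4 ^ N := one_le_pow₀ (by norm_num)
      linarith
    have h3 : (1 : ℝ) / (180 * 4 ^ N) ≤ 1 / 180 := by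
      apply one_div_le_one_div_of_le (by norm_num)
      have : (1 : ℝ) ≤ 4 ^ N := one_le_pow₀ (by norm_num)
      linarith
    linarith
  · intro hMf t b x hx0 hx hp
    have hxi : IsIntegral ℤ x := integral_of_root _ b hp
    exact eta_mix hx0 hxi hx hN hP hB hC (fun hi =>
      hgood t x (eig_of_root (act (gam H k) t) b hp (minpoly.aeval ℤ x)) hx0 hxi hi hx)

/-- Lehmer's problem for the remaining units -/
def LehmR (N P B C : ℕ) : Prop :=
  ∃ ε > 0, ∀ x : ℂ, UnitNR x → ¬ GoodU N P B C x → 1 + ε ≤ MM x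

theorem ck_of_lehmR {N P B C : ℕ} (hN : 1 ≤ N) (hP : 1 ≤ P) (hB : 1 ≤ B)
    (hC : 1 ≤ C) (h : LehmR N P B C) (k : ℕ) (hk : 1 ≤ k) : ∃ c > 0, CK k c := by
  obtain ⟨ε, hε, h⟩ := h
  have hbase : 0 < Real.log (base (1 + ε)) := Real.log_pos (one_lt_base (by linarith))
  set c := min (kap N P B C / 2) (Real.log (base (1 + ε))) with hc
  have hc0 : 0 < c := lt_min (by have := kap_pos (N := N) hP hB hC; linarith) hbase
  have hpos : (0 : ℝ) < ((2 ^ (k + 1) : ℕ) : ℝ) := by positivity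
  have key : ∀ x : ℂ, x ≠ 0 → (∀ m > 0, x ^ m ≠ 1) → c ≤ H746UG.eta x := by
    intro x h0 hroot
    by_cases hi : IsIntegral ℤ x ∧ IsIntegral ℤ x⁻¹
    · by_cases hg : GoodU N P B C x
      · exact (min_le_left _ _).trans (eta_mix h0 hi.1 hroot hN hP hB hC (fun _ => hg))
      · refine ((min_le_right _ _).trans ?_).trans (eta_ge x h0 hi.1)
        apply Real.log_le_log (base_pos _)
        exact base_mono (by linarith) (h x ⟨h0, hi.1, hi.2, hroot⟩ hg)
    · rw [H746UG.eta_eq_log_two x h0 hi]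
      refine (min_le_left _ _).trans ?_
      have := Real.log_two_gt_d9
      have h1 := kap_le_four (N := N) hP hB hC
      have h3 : (1 : ℝ) / (180 * 4 ^ N) ≤ 1 / 180 := by
        apply one_div_le_one_div_of_le (by norm_num)
        have : (1 : ℝ) ≤ 4 ^ N := one_le_pow₀ (by norm_num)
        linarith
      linarith
  refine ⟨c / ((2 ^ (k + 1) : ℕ) : ℝ), div_pos hc0 hpos, ?_⟩
  intro G _ S hS hgen hnil
  by_cases hnv : Group.IsVirtuallyNilpotent G
  · exact Or.inl hnv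
  right
  obtain ⟨x, hx0, hx, hn⟩ := (H785R3.GrowthA.main_dig hS hgen hk).resolve_right (by
    rintro ⟨h4, h5⟩
    rcases hnil with h6 | h6
    · exact hnv (h5 h6)
    · exact h6 h4)
  exact (div_le_div_of_nonneg_right (key x hx0 hx) hpos.le).trans
    (rho_of_dig S (by positivity) hx0 hn)

theorem lehmR_of_two {N P B C : ℕ} {c : ℝ} (hc : 0 < c) (h : CTwo c) : LehmR N P B C := by
  refine ⟨Real.exp c - 1, by have := Real.add_one_lt_exp hc.ne'; linarith, ?_⟩
  intro x hx _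
  rcases h (H746UG.AG x hx.1) (H746UG.AS x hx.1) (H746UG.AS_finite x hx.1)
    (H746UG.AS_gen x hx.1) (H746UG.aff_metabelian x hx.1) with h4 | h4
  · exact absurd h4 (H746UG.aff_not_vn x hx.1 hx.2.2.2)
  · rw [H746UG.rho_AS x hx.1] at h4
    have h5 := h4.trans (eta_le x hx.1 hx.2.1)
    have hM : 0 < MM x := zero_lt_one.trans_le (MM_ge x hx.2.1)
    have h6 := Real.exp_le_exp.2 h5
    rw [Real.exp_log hM] at h6
    linarith

theorem equiv_mix {N P B C : ℕ} (hN : 1 ≤ N) (hP : 1 ≤ P) (hB : 1 ≤ B) (hC : 1 ≤ C) :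
    ((∃ c > 0, CTwo c) ↔ LehmR N P B C) ∧
      ((∀ k : ℕ, 1 ≤ k → ∃ c > 0, CK k c) ↔ LehmR N P B C) := by
  refine ⟨⟨fun ⟨c, hc, h⟩ => lehmR_of_two hc h, fun h => ?_⟩, ⟨fun h => ?_, fun h k hk =>
    ck_of_lehmR hN hP hB hC h k hk⟩⟩
  · obtain ⟨c, hc, h1⟩ := ck_of_lehmR hN hP hB hC h 1 le_rfl
    exact ⟨c, hc, two_of_ck h1⟩
  · obtain ⟨c, hc, h1⟩ := h 1 le_rfl
    exact lehmR_of_two hc (two_of_ck h1)

/-- common factors modulo primes make the norm large -/
theorem pow_le_normPow {z : ℂ} (hz : IsIntegral ℤ z) (h0 : z ≠ 0) (hroot : ∀ m > 0, z ^ m ≠ 1)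
    {n : ℕ} (hn : 0 < n) (p : ℕ) [Fact p.Prime] (h : (ZMod p)[X])
    (h1 : h ∣ (minpoly ℤ z).map (Int.castRingHom (ZMod p))) (h2 : h ∣ X ^ n - 1) :
    (p : ℝ) ^ h.natDegree ≤ normPow z n := by
  rw [normPow_eq hz]
  have h3 := R_cyc_ne_zero (minpoly ℤ z) (minpoly.monic hz) (minpoly.irreducible hz)
    (MM_gt z hz h0 hroot) n hn
  have h4 := pow_dvd_R p (minpoly ℤ z) (cyc n) (minpoly.monic hz) h h1 (by simpa [cyc] using h2)
  have h5 := Int.le_of_dvd (abs_pos.mpr h3) ((dvd_abs _ _).mpr h4)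
  exact_mod_cast h5

/-- `gap_general` with the eigenvalue made explicit -/
theorem gap_track {k d : ℕ} (hk : 1 ≤ k) {G : Type u} [Group G] (S : Set G)
    (hfin : S.Finite) (hgen : Subgroup.closure S = ⊤) (H : Subgroup G) (hH0 : H.index ≠ 0)
    (hHd : H.index ≤ d)
    (hnil : Group.IsNilpotent (gam H k) ∨ ¬ Group.IsVirtuallyNilpotent (H ⧸ ⁅gam H k, gam H k⁆)) :
    Group.IsVirtuallyNilpotent G ∨ Real.log 2 / (2 ^ (k + 1) * (2 * d - 1)) ≤ H746UG.rho S ∨
      ∃ (t : H) (x : ℂ), Module.End.HasEigenvalue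
        (LinearMap.baseChange ℂ (act (gam H k) t) :
          Module.End ℂ (ℂ ⊗[ℤ] (Additive (Abelianization (gam H k))))) x ∧
        x ≠ 0 ∧ IsIntegral ℤ x ∧ (∀ n > 0, x ^ n ≠ 1) ∧
        H746UG.eta x / (2 ^ (k + 1) * (2 * d - 1)) ≤ H746UG.rho S := by
  have hd : 1 ≤ d := by omega
  rcases S.eq_empty_or_nonempty with rfl | hne
  · left
    rw [Subgroup.closure_empty] at hgen
    have hsub : Subsingleton G := Subgroup.subsingleton_iff.1 (subsingleton_of_bot_eq_top hgen)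
    refine ⟨⊥, ?_, ?_⟩
    · infer_instance
    · constructor
      rw [hgen, Subgroup.index_top]
      exact one_ne_zero
  have fin : ∀ c : ℝ, c / ((2 ^ (k + 1) : ℕ) : ℝ) ≤ H746UG.rho (TT S H d) →
      c / (2 ^ (k + 1) * (2 * d - 1)) ≤ H746UG.rho S := by
    intro c h1
    have h2 := rho_TT S hfin hne H hd
    have he : ((2 * d - 1 : ℕ) : ℝ) = 2 * d - 1 := by
      rw [Nat.cast_sub (by omega)]; push_cast; ring
    rw [he] at h2
    have hpos : (0 : ℝ) < 2 * d - 1 := by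
      have : (1 : ℝ) ≤ d := by exact_mod_cast hd
      linarith
    have h3 := h1.trans h2
    push_cast at h3
    rw [← div_div, div_le_iff₀ hpos, mul_comm (H746UG.rho S)]
    exact h3
  have hLpos : 0 < 2 ^ (k + 1) := by positivity
  rcases main_track (TT_finite S hfin H d) (TT_gen S hgen H hH0 hHd) hk with
    h | ⟨hMf, t, b, x, hx0, hx, hp, hn⟩ | ⟨h', h⟩
  · right; left
    exact fin _ (rho_of_two _ hLpos h)
  · right; right
    exact ⟨t, x, eig_of_root (act (gam H k) t) b hp (minpoly.aeval ℤ x), hx0,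
      integral_of_root _ b hp, hx, fin _ (rho_of_dig _ hLpos hx0 hn)⟩
  · left
    rcases hnil with hnil | hnil
    · exact vn_of_sub H hH0 (h hnil)
    · exact absurd h' hnil

/-- **the gap** -/
theorem gap_tri {k d N P B C : ℕ} (hk : 1 ≤ k) (hN : 1 ≤ N) (hP : 1 ≤ P) (hB : 1 ≤ B)
    (hC : 1 ≤ C) {G : Type u} [Group G]
    (S : Set G) (hfin : S.Finite) (hgen : Subgroup.closure S = ⊤) (H : Subgroup G)
    (hH0 : H.index ≠ 0) (hHd : H.index ≤ d)
    (hnil : Group.IsNilpotent (gam H k) ∨ ¬ Group.IsVirtuallyNilpotent (H ⧸ ⁅gam H k, gam H k⁆)) :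
    Group.IsVirtuallyNilpotent G ∨
      kap N P B C / (2 ^ (k + 2) * (2 * d - 1)) ≤ H746UG.rho S ∨
      ∃ (t : H) (x : ℂ), Module.End.HasEigenvalue
        (LinearMap.baseChange ℂ (act (gam H k) t) :
          Module.End ℂ (ℂ ⊗[ℤ] (Additive (Abelianization (gam H k))))) x ∧ UnitNR x ∧
        ¬ GoodU N P B C x ∧
        min (1 / 180) (Real.log (MM x)) / (2 ^ (k + 2) * (2 * d - 1)) ≤ H746UG.rho S := by
  have hd : (1 : ℝ) ≤ d := by
    have : 1 ≤ d := by omega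
    exact_mod_cast this
  have hLpos : (0 : ℝ) < 2 ^ (k + 1) * (2 * d - 1) := by
    have : (0 : ℝ) < 2 * d - 1 := by linarith
    positivity
  have e : ∀ c : ℝ, c / (2 ^ (k + 2) * (2 * d - 1)) = (c / 2) / (2 ^ (k + 1) * (2 * d - 1)) := by
    intro c
    rw [div_div]
    congr 1
    ring
  have h180 : kap N P B C ≤ 1 / 180 := by
    have h1 := kap_le_four (N := N) hP hB hC
    have h3 : (1 : ℝ) / (180 * 4 ^ N) ≤ 1 / 180 := by
      apply one_div_le_one_div_of_le (by norm_num)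
      have : (1 : ℝ) ≤ 4 ^ N := one_le_pow₀ (by norm_num)
      linarith
    linarith
  have hl2 := Real.log_two_gt_d9
  rcases gap_track hk S hfin hgen H hH0 hHd hnil with h | h | ⟨t, x, hE, h0, hi, hroot, h⟩
  · exact Or.inl h
  · right; left
    rw [e]
    refine le_trans ?_ h
    gcongr
    linarith
  · right
    by_cases hu : IsIntegral ℤ x⁻¹
    · by_cases hg : GoodU N P B C x
      · left
        rw [e]
        refine le_trans ?_ h
        gcongr
        exact eta_mix h0 hi hroot hN hP hB hC (fun _ => hg)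
      · right
        refine ⟨t, x, hE, ⟨h0, hi, hu, hroot⟩, hg, ?_⟩
        rw [e]
        refine le_trans ?_ h
        gcongr
        have hM := Real.log_pos (MM_gt x hi h0 hroot)
        exact eta_boundC h0 hi hroot (lt_min (by norm_num) hM) (min_le_left _ _) (min_le_right _ _)
    · left
      rw [e]
      refine le_trans ?_ h
      gcongr
      rw [H746UG.eta_eq_log_two x h0 (fun h => hu h.2)]
      linarith

end Pool.Agent.Helper34K9.UG
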